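import Pool.Agent.Helper15.GS.GoalsD

/-!
# Packet GS GSNC: the criterion with vector fields
-/

open Complex Metric Set Filter Topology MeasureTheory
open scoped ContDiff ComplexConjugate ComplexOrder Manifold Matrix

namespace Pool.Agent.Helper31.GS

open Pool.Agent.Helper95.Lin Pool.Agent.Helper16.Abund Pool.Agent.Helper92.Orb
  Pool.Agent.Helper10.SP Pool.Agent.Helper95.RK Pool.Agent.Helper57.HS
  Pool.Agent.Helper15.HS Pool.Agent.Helper15.GS
open Pool.Agent.Helper15.RK (sqT)

variable {n : ℕ}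

theorem cd_congr {f g : Cn n → ℂ} {x : Cn n} (h : f =ᶠ[𝓝 x] g) (l : Fin n) :
    cd l f x = cd l g x := by
  unfold cd
  rw [h.fderiv_eq]

theorem cdb_congr {f g : Cn n → ℂ} {x : Cn n} (h : f =ᶠ[𝓝 x] g) (l : Fin n) :
    cdb l f x = cdb l g x := by
  unfold cdb
  rw [h.fderiv_eq]

theorem cd_cdb_congr {W : Set (Cn n)} (hW : IsOpen W) {f g : Cn n → ℂ} {x : Cn n} (hx : x ∈ W)
    (h : ∀ y ∈ W, f y = g y) (k l : Fin n) : cd k (cdb l f) x = cd k (cdb l g) x := by
  refine cd_congr ?_ k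
  filter_upwards [hW.mem_nhds hx] with y hy
  refine cdb_congr ?_ l
  filter_upwards [hW.mem_nhds hy] with z hz
  exact h z hz

theorem cdM_congr {W : Set (Cn n)} (hW : IsOpen W) {X Y : Cn n → Matrix (Fin n) (Fin n) ℂ}
    {x : Cn n} (hx : x ∈ W) (h : ∀ y ∈ W, X y = Y y) (k : Fin n) : cdM k X x = cdM k Y x := by
  ext i j
  unfold cdM
  simp only [Matrix.of_apply]
  refine cd_congr ?_ k
  filter_upwards [hW.mem_nhds hx] with y hy
  rw [h y hy]

/-- An affine function. -/
theorem cd_affine (c0 : ℂ) (x0 c : Cn n) (k : Fin n) (y : Cn n) :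
    cd k (fun y : Cn n => c0 - (1 / 2) * ∑ m, (y m - x0 m) * c m) y = - c k ∧
    cdb k (fun y : Cn n => c0 - (1 / 2) * ∑ m, (y m - x0 m) * c m) y = 0 := by
  set L : Cn n →L[ℂ] ℂ := - ((1 / 2 : ℂ) • ∑ m, c m • ContinuousLinearMap.proj (R := ℂ) m) with hL
  have hLe : ∀ e : Cn n, L e = - ((1 / 2) * ∑ m, c m * e m) := by
    intro e
    rw [hL]
    simp
  have hf : HasFDerivAt (𝕜 := ℂ) (fun y : Cn n => c0 - (1 / 2) * ∑ m, (y m - x0 m) * c m) L y := by
    have h1 : (fun y : Cn n => c0 - (1 / 2) * ∑ m, (y m - x0 m) * c m) =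
        fun y => (c0 + (1 / 2) * ∑ m, c m * x0 m) + L y := by
      funext y
      rw [hLe, Finset.mul_sum, Finset.mul_sum, Finset.mul_sum]
      have : ∑ i, 1 / 2 * ((y i - x0 i) * c i) =
          ∑ i, 1 / 2 * (c i * y i) - ∑ i, 1 / 2 * (c i * x0 i) := by
        rw [← Finset.sum_sub_distrib]
        refine Finset.sum_congr rfl fun i _ => ?_
        ring
      rw [this]
      ring
    rw [h1]
    exact (L.hasFDerivAt).const_add _
  have hf' := (hf.restrictScalars ℝ).fderiv
  unfold cd cdb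
  rw [hf']
  have e1 : (L.restrictScalars ℝ) (Pi.single k 1) = - ((1 / 2) * c k) := by
    rw [ContinuousLinearMap.coe_restrictScalars', hLe]
    congr 2
    rw [Finset.sum_eq_single k]
    · simp
    · intro b _ hb
      rw [Pi.single_eq_of_ne hb, mul_zero]
    · intro h
      exact absurd (Finset.mem_univ k) h
  have e2 : (L.restrictScalars ℝ) (Pi.single k I) = - ((1 / 2) * (c k * I)) := by
    rw [ContinuousLinearMap.coe_restrictScalars', hLe]
    congr 2
    rw [Finset.sum_eq_single k]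
    · simp
    · intro b _ hb
      rw [Pi.single_eq_of_ne hb, mul_zero]
    · intro h
      exact absurd (Finset.mem_univ k) h
  rw [e1, e2]
  constructor
  · linear_combination (1 / 2) * c k * Complex.I_mul_I
  · linear_combination (-1 / 2) * c k * Complex.I_mul_I

theorem hermi_real {A : Matrix (Fin n) (Fin n) ℂ} (hA : A.IsHermitian) (u : Cn n) :
    (((hermi A u u).re : ℝ) : ℂ) = hermi A u u := by
  rw [← Complex.conj_eq_iff_re]
  unfold hermi
  rw [map_sum]
  simp only [map_sum, map_mul, Complex.conj_conj]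
  rw [Finset.sum_comm]
  refine Finset.sum_congr rfl fun i _ => Finset.sum_congr rfl fun j _ => ?_
  have : conj (A j i) = A i j := hA.apply i j
  rw [this]
  ring

theorem sum4_comm (a : Fin n → Fin n → Fin n → Fin n → ℂ) :
    ∑ k, ∑ l, ∑ i, ∑ j, a i j k l = ∑ i, ∑ j, ∑ k, ∑ l, a i j k l := by
  calc ∑ k, ∑ l, ∑ i, ∑ j, a i j k l = ∑ k, ∑ i, ∑ l, ∑ j, a i j k l :=
        Finset.sum_congr rfl fun k _ => Finset.sum_comm
    _ = ∑ i, ∑ k, ∑ l, ∑ j, a i j k l := Finset.sum_comm
    _ = ∑ i, ∑ k, ∑ j, ∑ l, a i j k l :=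
        Finset.sum_congr rfl fun i _ => Finset.sum_congr rfl fun k _ => Finset.sum_comm
    _ = ∑ i, ∑ j, ∑ k, ∑ l, a i j k l :=
        Finset.sum_congr rfl fun i _ => Finset.sum_comm

theorem gsnc (hWI : S_WIRT) (hLMF : S_LMF) (hMC : S_MCAL) : S_GSNC := by
  intro n W hW h hpos hsm hσ x hx u v
  have hher : ∀ y ∈ W, (h y).IsHermitian := fun y hy => (hpos y hy).isHermitian
  set Γ : Fin n → Matrix (Fin n) (Fin n) ℂ := fun k => Gam h k x with hΓ
  set U : Matrix (Fin n) (Fin n) ℂ := Matrix.of fun _ i => u i with hU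
  set σ : Cn n → Cn n := fun y j =>
    u j - (1 / 2) * ∑ m, (y m - x m) * (∑ i, u i * Γ m i j) with hσd
  have hσC : Differentiable ℂ σ := by
    rw [differentiable_pi]
    intro j
    simp only [hσd]
    fun_prop
  set S : Cn n → Matrix (Fin n) (Fin n) ℂ := fun y => Matrix.of fun _ j => σ y j with hS
  have hSs : ∀ i j, ContDiffOn ℝ ∞ (fun y => S y i j) W := by
    intro i j
    refine ContDiff.contDiffOn ?_
    simp only [hS, Matrix.of_apply, hσd]
    fun_prop
  have hSx : S x = U := by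
    ext i j
    simp [hS, hσd, hU]
  have hcdS : ∀ k y, cdM k S y = - (U * Γ k) := by
    intro k y
    ext i j
    unfold cdM
    simp only [hS, Matrix.of_apply, hσd, Matrix.neg_apply, Matrix.mul_apply, hU]
    exact (cd_affine (u j) x (fun m => ∑ i, u i * Γ m i j) k y).1
  have hcdbS : ∀ k y, cdbM k S y = 0 := by
    intro k y
    ext i j
    unfold cdbM
    simp only [hS, Matrix.of_apply, hσd, Matrix.zero_apply]
    exact (cd_affine (u j) x (fun m => ∑ i, u i * Γ m i j) k y).2
  -- calculus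
  have hSt : ∀ i j, ContDiffOn ℝ ∞ (fun y => ((S y)ᴴ) i j) W := by
    intro i j
    simp only [Matrix.conjTranspose_apply]
    exact (Complex.conjCLE.contDiff (n := ∞)).comp_contDiffOn (hSs j i)
  obtain ⟨-, hSh, hSh', -⟩ := hMC W hW S h hSs hsm
  obtain ⟨hcs, -⟩ := hMC W hW h h hsm hsm
  obtain ⟨-, hF, hF', -⟩ := hMC W hW (fun y => S y * h y) (fun y => (S y)ᴴ) hSh hSt
  have hcdb : ∀ l, ∀ y ∈ W, cdbM l (fun y => S y * h y * (S y)ᴴ) y =
      S y * cdbM l h y * (S y)ᴴ + S y * h y * (- (U * Γ l))ᴴ := by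
    intro l y hy
    rw [(hF' y hy l).2.1, (hSh' y hy l).2.1, hcdbS, (hSh' y hy l).2.2.2.1, hcdS,
      Matrix.zero_mul, zero_add]
  have hmain : ∀ k l, cdM k (cdbM l (fun y => S y * h y * (S y)ᴴ)) x =
      U * (cdM k (cdbM l h) x - Γ k * cdbM l h x) * Uᴴ := by
    intro k l
    rw [cdM_congr hW hx (hcdb l) k]
    -- first summand
    obtain ⟨-, hA1, hA1', -⟩ := hMC W hW S (cdbM l h) hSs (fun i j => (hcs l i j).2)
    obtain ⟨-, hA2, hA2', -⟩ := hMC W hW (fun y => S y * cdbM l h y) (fun y => (S y)ᴴ) hA1 hSt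
    have hN : ∀ i j, ContDiffOn ℝ ∞ (fun _ : Cn n => ((- (U * Γ l))ᴴ) i j) W :=
      fun i j => contDiffOn_const
    obtain ⟨-, hB, hB', -⟩ := hMC W hW (fun y => S y * h y) (fun _ => (- (U * Γ l))ᴴ) hSh hN
    have hadd : cdM k (fun y => S y * cdbM l h y * (S y)ᴴ + S y * h y * (- (U * Γ l))ᴴ) x =
        cdM k (fun y => S y * cdbM l h y * (S y)ᴴ) x +
          cdM k (fun y => S y * h y * (- (U * Γ l))ᴴ) x := by
      ext i j
      have := (hWI W hW _ _ (hA2 i j) (hB i j)).2.1 k x hx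
      simpa [cdM, Matrix.add_apply] using this.1
    rw [hadd, (hA2' x hx k).1, (hB' x hx k).1, (hA1' x hx k).1, (hSh' x hx k).1,
      (hSh' x hx k).2.2.1, hcdbS, hcdS, hSx]
    have hconst : cdM k (fun _ : Cn n => (- (U * Γ l))ᴴ) x = 0 := by
      ext i j
      simp [cdM, cd]
    have hGam : Γ k * h x = cdM k h x := by
      simp only [hΓ, Gam]
      have hdet : IsUnit (h x).det := (hpos x hx).isUnit.map Matrix.detMonoidHom
      rw [Matrix.mul_assoc, Matrix.nonsing_inv_mul _ hdet, Matrix.mul_one]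
    rw [hconst, ← hGam]
    simp only [Matrix.conjTranspose_zero, Matrix.mul_zero, add_zero, Matrix.neg_mul,
      Matrix.mul_assoc, neg_add_cancel, Matrix.zero_mul, Matrix.mul_sub, Matrix.add_mul,
      Matrix.sub_mul]
    abel
  -- the Levi matrix
  have hfc : ∀ y ∈ W, ∀ i, ((sqT h σ y : ℝ) : ℂ) = (S y * h y * (S y)ᴴ) i i := by
    intro y hy i
    unfold Pool.Agent.Helper15.RK.sqT
    rw [hermi_real (hher y hy)]
    unfold hermi
    simp only [Matrix.mul_apply, Matrix.conjTranspose_apply, hS, Matrix.of_apply,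
      Finset.sum_mul]
    rw [Finset.sum_comm]
    refine Finset.sum_congr rfl fun p _ => Finset.sum_congr rfl fun q _ => ?_
    simp only [RCLike.star_def]
    ring
  have hfs : ContDiffOn ℝ ∞ (sqT h σ) W := by
    rcases Nat.eq_zero_or_pos n with rfl | hn
    · have : sqT h σ = fun _ => 0 := by
        funext y
        simp [Pool.Agent.Helper15.RK.sqT, hermi]
      rw [this]
      exact contDiffOn_const
    · have h1 := hF ⟨0, hn⟩ ⟨0, hn⟩
      have h2 : ContDiffOn ℝ ∞ (fun y => ((S y * h y * (S y)ᴴ) ⟨0, hn⟩ ⟨0, hn⟩).re) W :=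
        (Complex.reCLM.contDiff (n := ∞)).comp_contDiffOn h1
      refine h2.congr fun y hy => ?_
      rw [← hfc y hy ⟨0, hn⟩, Complex.ofReal_re]
  have hLM : ∀ k l, LM (sqT h σ) x k l = - ∑ p, ∑ q, crv h x p q k l * u p * conj (u q) := by
    intro k l
    have e1 : LM (sqT h σ) x k l = cd k (cdb l (fun y => (S y * h y * (S y)ᴴ) k k)) x := by
      unfold LM
      rw [Matrix.of_apply]
      exact cd_cdb_congr hW hx (fun y hy => hfc y hy k) k l
    have e2 : cd k (cdb l (fun y => (S y * h y * (S y)ᴴ) k k)) x =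
        cdM k (cdbM l (fun y => S y * h y * (S y)ᴴ)) x k k := by
      simp only [cdM, cdbM, Matrix.of_apply]
    rw [e1, e2, hmain]
    simp only [Matrix.mul_apply, Matrix.conjTranspose_apply, hU, Matrix.of_apply,
      Finset.sum_mul]
    rw [Finset.sum_comm, ← Finset.sum_neg_distrib]
    refine Finset.sum_congr rfl fun p _ => ?_
    rw [← Finset.sum_neg_distrib]
    refine Finset.sum_congr rfl fun q _ => ?_
    have e3 : crv h x p q k l = - (cdM k (cdbM l h) x - Γ k * cdbM l h x) p q := by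
      unfold crv
      rw [Matrix.sub_apply]
      simp only [hΓ, Gam]
      have e4 : cd k (cdb l fun y => h y p q) x = cdM k (cdbM l h) x p q := by
        simp only [cdM, cdbM, Matrix.of_apply]
      rw [e4]
      ring
    rw [e3]
    simp only [RCLike.star_def]
    ring
  have hfin := (hLMF W hW (sqT h σ) hfs).2.2.1 x hx v
  have hge := hσ σ hσC x hx v
  have e5 : hermi (LM (sqT h σ) x) v v =
      - ∑ i, ∑ j, ∑ k, ∑ l, crv h x i j k l * u i * conj (u j) * v k * conj (v l) := by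
    rw [← sum4_comm]
    unfold hermi
    rw [← Finset.sum_neg_distrib]
    refine Finset.sum_congr rfl fun k _ => ?_
    rw [← Finset.sum_neg_distrib]
    refine Finset.sum_congr rfl fun l _ => ?_
    rw [hLM k l, neg_mul, neg_mul, Finset.sum_mul, Finset.sum_mul]
    congr 1
    refine Finset.sum_congr rfl fun p _ => ?_
    rw [Finset.sum_mul, Finset.sum_mul]
  have e6 := congrArg Complex.re hfin
  rw [Complex.ofReal_re, e5, Complex.neg_re] at e6
  linarith

end Pool.Agent.Helper31.GS
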